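import Mathlib
import Pool.Agent.Q199.Mem.Prefix
set_option autoImplicit false

/-! # MP_def589_lc, Q1: a prefix-independent winning condition with finite general memory and
infinite chromatic memory (positive answer).

`Arena`, `Strategy`, `MemStr`, `GenMem`, `ChrMem` and `PrefixIndep` (in `Pool.Agent.Q199.Mem.Defs`)
are the notions of the problem: finite arenas, strategies on finite paths (the same strategy for all
starting nodes), memory structures with `k` states, the least number of states of general,
respectively chromatic, memory with which Protagonist plays optimally in every arena, and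
prefix-independence (`xy ∈ W ↔ y ∈ W`).

The condition: five colours act on a counter in `ℕ`: `n ↦ n - 1`; `n ↦ n` if `n ≠ 2` and `2 ↦ 0`;
`n ↦ n + 1`; `n ↦ 2n + [n is a perfect square]` (for `n ≥ 1`, these four fix `0`); the fifth one,
`r`, resets the counter to `1`. A word is in `W` if `r` is read only finitely often with the
counter at `0`. -/

namespace Pool.Agent.Results.MP_def589_lc.PrefixIndependentSeparation

open Pool.Agent.Q199.Mem

/-- There are a finite set of colours and a prefix-independent condition over it with
`GenMem W = 2` and `ChrMem W = ∞`. -/
theorem result : ∃ (n : ℕ) (W : Set (ℕ → Fin n)), PrefixIndep W ∧ GenMem W = 2 ∧ ChrMem W = ⊤ :=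
  ⟨5, coW op5 4, prefixIndep_coW goodR5.reset, genMem_two (genOK_coW goodR5) (not_chrOK5 1),
    chrMem_top fun k _ => not_chrOK5 k⟩

end Pool.Agent.Results.MP_def589_lc.PrefixIndependentSeparation
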